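import Pool.Agent.Work.MP_659252_gt.QR.Defs

/-!
# Auxiliary notions for the rigidity of layered directions

Matrices as bilinear forms (`bil`), great circles (`gc`, `gd`), the Euler-Lagrange expression `Eul` of the function
`bil (G x) v v / 2`, fields of matrices which are homogeneous of degree `0` and tangential (`FldOn`), smooth metrics in
normal form (`Met`, `Nice`), geodesics as solutions of an ODE (`Sol`), the integral `Phi` of a tensor over a great circle
(or over an ellipse), the canonical bracket `br` and the John operators `JJ` on functions of pairs of vectors.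
-/

namespace Pool.Agent.Work.MP_659252_gt.QR

open scoped ContDiff
open Pool.Agent.Work.MP_659252_gt.Z (V Ten val Tan InT IsZoll IsMetric IsGeodesic)

variable {d : ℕ}

/-- Square matrices. -/
abbrev Mat (d : ℕ) : Type := Fin (d + 1) → Fin (d + 1) → ℝ

/-- The bilinear form of a matrix. -/
def bil (M : Mat d) (v w : V d) : ℝ := ∑ i, ∑ j, M i j * (v i * w j)

/-- Matrix times vector. -/
def mul (M : Mat d) (v : V d) : V d := fun i => ∑ j, M i j * v j

/-- The standard basis. -/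
noncomputable def ee (i : Fin (d + 1)) : V d := Pi.single i 1

/-- The curve `cos s X + sin s W` (a great circle if `X`, `W` are orthonormal, an ellipse in general). -/
noncomputable def gc (X W : V d) (s : ℝ) : V d := Real.cos s • X + Real.sin s • W

/-- The velocity of `gc`. -/
noncomputable def gd (X W : V d) (s : ℝ) : V d := Real.cos s • W - Real.sin s • X

/-- The derivative of the field of matrices `G` at `x` in the direction `v`. -/
noncomputable def dT (G : Ten d) (x v : V d) : Mat d := fun i j => fderiv ℝ (fun y => G y i j) x v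

/-- The Euler-Lagrange expression `1/2 grad_x (bil (G x) v v) - (D_v G) v`. -/
noncomputable def Eul (G : Ten d) (x v : V d) : V d := fun i =>
  (1 / 2) * bil (dT G x (ee i)) v v - mul (dT G x v) v i

/-- `X`, `W` are orthonormal. -/
def Orth (X W : V d) : Prop := X ⬝ᵥ X = 1 ∧ W ⬝ᵥ W = 1 ∧ X ⬝ᵥ W = 0

/-- Fields of symmetric matrices, homogeneous of degree `0`, tangential (the matrix at `x` kills `x`), smooth on `C`. -/
structure FldOn (h : Ten d) (C : Set (V d)) : Prop where
  smooth : ContDiffOn ℝ ∞ h C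
  symm : ∀ x i j, h x i j = h x j i
  hom : ∀ (c : ℝ) (x : V d), 0 < c → h (c • x) = h x
  tan : ∀ x v, bil (h x) x v = 0

/-- Fields of matrices which are smooth away from `0`, symmetric, homogeneous of degree `0` and tangential. -/
abbrev Fld (h : Ten d) : Prop := FldOn h {0}ᶜ

/-- A Riemannian metric in normal form: homogeneous of degree `0`, `G x` maps `x` to `x`, positive definite. -/
structure Met (G : Ten d) : Prop where
  smooth : ContDiffOn ℝ ∞ G {0}ᶜ
  symm : ∀ x, x ≠ 0 → ∀ i j, G x i j = G x j i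
  hom : ∀ (c : ℝ) (x : V d), 0 < c → G (c • x) = G x
  rad : ∀ x, x ≠ 0 → ∀ v, bil (G x) x v = x ⬝ᵥ v
  pos : ∀ x, x ≠ 0 → ∀ v, v ≠ 0 → 0 < bil (G x) v v

/-- A smooth family of Zoll metrics in normal form, through the round metric. -/
structure Nice (ε : ℝ) (G : ℝ → Ten d) : Prop where
  pos : 0 < ε
  smooth : ContDiffOn ℝ ∞ (fun p : ℝ × V d => G p.1 p.2) (Set.Ioo (-ε) ε ×ˢ {0}ᶜ)
  met : ∀ t ∈ Set.Ioo (-ε) ε, Met (G t)
  zoll : ∀ t ∈ Set.Ioo (-ε) ε, IsZoll (G t)
  rnd : ∀ x, x ≠ 0 → ∀ v w, bil (G 0 x) v w = v ⬝ᵥ w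

/-- `G(x)⁻¹ Eul`: the right side of the geodesic equation `c'' = -c + RR (c, c')` (unit speed). -/
noncomputable def RR (G : Ten d) (x v : V d) : V d := ((Matrix.of (G x))⁻¹).mulVec (Eul G x v)

/-- Unit speed geodesics of the metric `G` on the sphere, as solutions of the geodesic equation. -/
structure Sol (G : Ten d) (c : ℝ → V d) : Prop where
  smooth : ContDiff ℝ ∞ c
  sph : ∀ s, c s ⬝ᵥ c s = 1
  spd : ∀ s, bil (G (c s)) (deriv c s) (deriv c s) = 1
  ode : ∀ s, HasDerivAt (deriv c) (-c s + RR G (c s) (deriv c s)) s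

/-- The momentum of the curve `c`. -/
noncomputable def mom (G : Ten d) (c : ℝ → V d) (s : ℝ) : V d := mul (G (c s)) (deriv c s)

/-- The first variation of the great circle `(X, W)` under the tensor `k` (odd under the antipodal map). -/
noncomputable def Yf (k : Ten d) (X W : V d) (s : ℝ) : V d :=
  (1 / 2 : ℝ) • ∫ σ in (s - Real.pi)..s, Real.sin (s - σ) • Eul k (gc X W σ) (gd X W σ)

/-- The integral of a tensor over the great circle (or ellipse) `(X, W)`. -/
noncomputable def Phi (K : Ten d) (X W : V d) : ℝ :=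
  ∫ s in (0 : ℝ)..(2 * Real.pi), bil (K (gc X W s)) (gd X W s) (gd X W s)

/-- The region `1/4 ≤ x ⬝ x ≤ 4`, `‖v‖ ≤ 3`. -/
def InK (x v : V d) : Prop := 1 / 4 ≤ x ⬝ᵥ x ∧ x ⬝ᵥ x ≤ 4 ∧ ‖v‖ ≤ 3

/-- The Lagrange function `bil (G x) v v / 2 - x ⬝ x / 2`; it vanishes along unit speed curves on the sphere. -/
noncomputable def Lag (G : Ten d) (x v : V d) : ℝ := (1 / 2) * bil (G x) v v - (1 / 2) * (x ⬝ᵥ x)

/-- The derivative of `Lag G` at `(x, v)` in the direction `(a, b)`. -/
noncomputable def DLag (G : Ten d) (x v a b : V d) : ℝ := (1 / 2) * bil (dT G x a) v v + mul (G x) v ⬝ᵥ b - x ⬝ᵥ a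

/-- Uniform estimates for the metrics `G t`, `|t| ≤ t₁`. -/
structure Est (G : ℝ → Ten d) (C t₁ : ℝ) : Prop where
  Cpos : 0 < C
  tpos : 0 < t₁
  vb : ∀ t, |t| ≤ t₁ → ∀ x v : V d, x ⬝ᵥ x = 1 → bil (G t x) v v = 1 → ‖v‖ ≤ 2
  rb : ∀ t, |t| ≤ t₁ → ∀ x v : V d, InK x v → ‖RR (G t) x v‖ ≤ C * |t|
  rl : ∀ t, |t| ≤ t₁ → ∀ x v x' v' : V d, InK x v → InK x' v' →
    ‖RR (G t) x' v' - RR (G t) x v‖ ≤ C * |t| * (‖x' - x‖ + ‖v' - v‖)
  mb : ∀ t, |t| ≤ t₁ → ∀ x v : V d, InK x v → ‖mul (G t x) v - v‖ ≤ C * |t|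
  ml : ∀ t, |t| ≤ t₁ → ∀ x v x' v' : V d, InK x v → InK x' v' →
    ‖(mul (G t x') v' - v') - (mul (G t x) v - v)‖ ≤ C * |t| * (‖x' - x‖ + ‖v' - v‖)
  db : ∀ t, |t| ≤ t₁ → ∀ x : V d, 1 / 4 ≤ x ⬝ᵥ x → x ⬝ᵥ x ≤ 4 → ∀ u v w : V d,
    |bil (dT (G t) x u) v w| ≤ C * |t| * (‖u‖ * (‖v‖ * ‖w‖))
  tl : ∀ t, |t| ≤ t₁ → ∀ x v x' v' : V d, InK x v → InK x' v' →
    |Lag (G t) x' v' - Lag (G t) x v - DLag (G t) x v (x' - x) (v' - v)| ≤ C * (‖x' - x‖ + ‖v' - v‖) ^ 2

/-- The function which is maximised to find a closed geodesic. -/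
noncomputable def Wf (G : Ten d) (c : ℝ → V d) (τ : ℝ) : ℝ :=
  τ - mom G c τ ⬝ᵥ (c τ - c 0) - (1 / 2) * (mom G c 0 ⬝ᵥ (c τ - c 0)) ^ 2

/-- The field is odd under the antipodal map. -/
def OddF (k : Ten d) : Prop := ∀ x i j, k (-x) i j = -k x i j

/-- The second derivative of the family at `t = 0`. -/
noncomputable def Gdd (G : ℝ → Ten d) : Ten d := fun x i j => iteratedDeriv 2 (fun t => G t x i j) 0

/-- The canonical bracket of functions of pairs of vectors. -/
noncomputable def br (φ ψ : V d × V d → ℝ) (z : V d × V d) : ℝ :=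
  ∑ i, (fderiv ℝ φ z (ee i, 0) * fderiv ℝ ψ z (0, ee i) - fderiv ℝ φ z (0, ee i) * fderiv ℝ ψ z (ee i, 0))

/-- The John operator in the directions `A`, `B`. -/
noncomputable def JJ (A B : V d) (φ : V d × V d → ℝ) (z : V d × V d) : ℝ :=
  fderiv ℝ (fun y => fderiv ℝ φ y (0, B)) z (A, 0) - fderiv ℝ (fun y => fderiv ℝ φ y (0, A)) z (B, 0)

/-- The quadratic form (in `v`) which remains after one integration by parts along lines. -/
noncomputable def Kq (f w : V d → ℝ) (k : Ten d) (x v : V d) : ℝ :=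
  bil (k x) v v - w x * fderiv ℝ (fun y => fderiv ℝ f y v) x v - fderiv ℝ w x v * fderiv ℝ f x v

/-- Half of the integral of `b(f) K` over the line `z.1 + τ z.2`. -/
noncomputable def Fz (f : V d → ℝ) (K : V d → V d → ℝ) (b : ℝ → ℝ) (z : V d × V d) : ℝ :=
  (1 / 2) * ∫ τ : ℝ, b (f (z.1 + τ • z.2)) * K (z.1 + τ • z.2) z.2

/-- Half of the integral of `b(f) K` over the second half of the line minus the integral over the first half. -/
noncomputable def Ps (f : V d → ℝ) (K : V d → V d → ℝ) (b : ℝ → ℝ) (z : V d × V d) : ℝ :=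
  (1 / 2) * ∫ τ : ℝ, Real.sign τ * (b (f (z.1 + τ • z.2)) * K (z.1 + τ • z.2) z.2)

/-- Smooth function with compact support in the open interval `(lo, hi)`. -/
def Bump (lo hi : ℝ) (b : ℝ → ℝ) : Prop :=
  ContDiff ℝ ∞ b ∧ ∃ a c, lo < a ∧ c < hi ∧ ∀ s, s ∉ Set.Icc a c → b s = 0

/-- The local data at a point `P`: globally smooth `f`, `w`, `k`; tangent lines of the level set of `f` at `P` have `P`
as their highest point; the layered directions with profile supported in `(lo, hi)` are tangent to the Zoll metrics. -/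
structure Loc (f w : V d → ℝ) (k : Ten d) (lo hi : ℝ) (P : V d) : Prop where
  fs : ContDiffOn ℝ ∞ f {0}ᶜ
  ws : ContDiffOn ℝ ∞ w {0}ᶜ
  ks : SymTen k {0}ᶜ
  fh : ∀ (c : ℝ) (x : V d), c ≠ 0 → f (c • x) = f x
  wh : ∀ (c : ℝ) (x : V d), c ≠ 0 → w (c • x) = c ^ 2 * w x
  feq : ∀ x : V d, x ≠ 0 → x 0 = 0 → f x < lo
  lo_lt : lo < f P
  lt_hi : f P < hi
  P0 : 0 < P 0
  reg : gr f P ≠ 0
  uniq : ∀ v : V d, gr f P ⬝ᵥ v = 0 → v 0 = 0 → v ≠ 0 → ∀ τ : ℝ, τ ≠ 0 → f (P + τ • v) < f P
  curv : ∀ v : V d, gr f P ⬝ᵥ v = 0 → v 0 = 0 → v ≠ 0 → D2 f P v < 0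
  zoll : ∀ b : ℝ → ℝ, Bump lo hi b → InT (dir f w k b)

/-! ## Algebra of `bil` and `mul` -/

theorem val_eq (G : Ten d) (x v w : V d) : val G x v w = bil (G x) v w := rfl

theorem bil_eq_dot (M : Mat d) (v w : V d) : bil M v w = v ⬝ᵥ mul M w := by
  simp only [bil, mul, dotProduct, Finset.mul_sum]
  exact Finset.sum_congr rfl fun i _ => Finset.sum_congr rfl fun j _ => by ring

theorem bil_comm {M : Mat d} (hM : ∀ i j, M i j = M j i) (v w : V d) : bil M v w = bil M w v := by
  simp only [bil]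
  rw [Finset.sum_comm]
  exact Finset.sum_congr rfl fun i _ => Finset.sum_congr rfl fun j _ => by rw [hM j i]; ring

theorem bil_add_left (M : Mat d) (u v w : V d) : bil M (u + v) w = bil M u w + bil M v w := by
  simp only [bil, Pi.add_apply, ← Finset.sum_add_distrib]
  exact Finset.sum_congr rfl fun i _ => Finset.sum_congr rfl fun j _ => by ring

theorem bil_add_right (M : Mat d) (u v w : V d) : bil M u (v + w) = bil M u v + bil M u w := by
  simp only [bil, Pi.add_apply, ← Finset.sum_add_distrib]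
  exact Finset.sum_congr rfl fun i _ => Finset.sum_congr rfl fun j _ => by ring

theorem bil_smul_left (M : Mat d) (c : ℝ) (v w : V d) : bil M (c • v) w = c * bil M v w := by
  simp only [bil, Pi.smul_apply, smul_eq_mul, Finset.mul_sum]
  exact Finset.sum_congr rfl fun i _ => Finset.sum_congr rfl fun j _ => by ring

theorem bil_smul_right (M : Mat d) (c : ℝ) (v w : V d) : bil M v (c • w) = c * bil M v w := by
  simp only [bil, Pi.smul_apply, smul_eq_mul, Finset.mul_sum]
  exact Finset.sum_congr rfl fun i _ => Finset.sum_congr rfl fun j _ => by ring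

theorem bil_neg_left (M : Mat d) (v w : V d) : bil M (-v) w = -bil M v w := by
  have := bil_smul_left M (-1) v w
  simpa using this

theorem bil_neg_right (M : Mat d) (v w : V d) : bil M v (-w) = -bil M v w := by
  have := bil_smul_right M (-1) v w
  simpa using this

theorem bil_sub_left (M : Mat d) (u v w : V d) : bil M (u - v) w = bil M u w - bil M v w := by
  rw [sub_eq_add_neg, bil_add_left, bil_neg_left]; ring

theorem bil_sub_right (M : Mat d) (u v w : V d) : bil M u (v - w) = bil M u v - bil M u w := by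
  rw [sub_eq_add_neg, bil_add_right, bil_neg_right]; ring

theorem bil_add_mat (M N : Mat d) (v w : V d) : bil (fun i j => M i j + N i j) v w = bil M v w + bil N v w := by
  simp only [bil, ← Finset.sum_add_distrib]
  exact Finset.sum_congr rfl fun i _ => Finset.sum_congr rfl fun j _ => by ring

theorem bil_smul_mat (c : ℝ) (M : Mat d) (v w : V d) : bil (fun i j => c * M i j) v w = c * bil M v w := by
  simp only [bil, Finset.mul_sum]
  exact Finset.sum_congr rfl fun i _ => Finset.sum_congr rfl fun j _ => by ring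

theorem mul_add (M : Mat d) (v w : V d) : mul M (v + w) = mul M v + mul M w := by
  funext i
  simp only [mul, Pi.add_apply, ← Finset.sum_add_distrib]
  exact Finset.sum_congr rfl fun j _ => by ring

theorem mul_smul (M : Mat d) (c : ℝ) (v : V d) : mul M (c • v) = c • mul M v := by
  funext i
  simp only [mul, Pi.smul_apply, smul_eq_mul, Finset.mul_sum]
  exact Finset.sum_congr rfl fun j _ => by ring

theorem abs_bil_le (M : Mat d) (v w : V d) : |bil M v w| ≤ (∑ i, ∑ j, |M i j|) * (‖v‖ * ‖w‖) := by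
  simp only [bil, Finset.sum_mul]
  refine (Finset.abs_sum_le_sum_abs _ _).trans (Finset.sum_le_sum fun i _ => ?_)
  refine (Finset.abs_sum_le_sum_abs _ _).trans (Finset.sum_le_sum fun j _ => ?_)
  rw [abs_mul, abs_mul]
  have h1 : |v i| ≤ ‖v‖ := norm_le_pi_norm v i
  have h2 : |w j| ≤ ‖w‖ := norm_le_pi_norm w j
  exact mul_le_mul_of_nonneg_left (mul_le_mul h1 h2 (abs_nonneg _) (norm_nonneg _)) (abs_nonneg _)

theorem abs_dot_le (v w : V d) : |v ⬝ᵥ w| ≤ (d + 1 : ℝ) * (‖v‖ * ‖w‖) := by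
  simp only [dotProduct]
  refine (Finset.abs_sum_le_sum_abs _ _).trans ?_
  have h : ∀ i ∈ (Finset.univ : Finset (Fin (d + 1))), |v i * w i| ≤ ‖v‖ * ‖w‖ := fun i _ => by
    rw [abs_mul]
    exact mul_le_mul (norm_le_pi_norm v i) (norm_le_pi_norm w i) (abs_nonneg _) (norm_nonneg _)
  refine (Finset.sum_le_sum h).trans ?_
  simp

theorem norm_sq_le_dot (v : V d) : ‖v‖ ^ 2 ≤ v ⬝ᵥ v := by
  have h : ‖v‖ ≤ √(v ⬝ᵥ v) := by
    rw [pi_norm_le_iff_of_nonneg (Real.sqrt_nonneg _)]
    intro i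
    refine Real.le_sqrt_of_sq_le ?_
    rw [Real.norm_eq_abs, sq_abs]
    simp only [dotProduct]
    have := Finset.single_le_sum (f := fun j => v j * v j) (fun j _ => mul_self_nonneg (v j)) (Finset.mem_univ i)
    nlinarith
  calc ‖v‖ ^ 2 ≤ √(v ⬝ᵥ v) ^ 2 := by gcongr
    _ = v ⬝ᵥ v := Real.sq_sqrt (by simp only [dotProduct]; exact Finset.sum_nonneg fun j _ => mul_self_nonneg _)

theorem dot_self_nonneg (v : V d) : 0 ≤ v ⬝ᵥ v := by
  simp only [dotProduct]; exact Finset.sum_nonneg fun j _ => mul_self_nonneg _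

theorem ne_zero_of_dot {v : V d} (h : v ⬝ᵥ v = 1) : v ≠ 0 := by
  rintro rfl
  simp at h

theorem dot_ee (v : V d) (i : Fin (d + 1)) : v ⬝ᵥ ee i = v i := by
  simp [ee, dotProduct, Pi.single_apply]

theorem vec_ext {v w : V d} (h : ∀ u : V d, v ⬝ᵥ u = w ⬝ᵥ u) : v = w := by
  funext i
  rw [← dot_ee v i, ← dot_ee w i, h]

theorem hasDerivAt_gc (X W : V d) (s : ℝ) : HasDerivAt (gc X W) (gd X W s) s := by
  have h1 := ((Real.hasDerivAt_cos s).smul_const X).add ((Real.hasDerivAt_sin s).smul_const W)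
  refine h1.congr_deriv ?_
  rw [gd, neg_smul]
  abel

theorem hasDerivAt_gd (X W : V d) (s : ℝ) : HasDerivAt (gd X W) (-gc X W s) s := by
  have h1 := ((Real.hasDerivAt_cos s).smul_const W).sub ((Real.hasDerivAt_sin s).smul_const X)
  refine h1.congr_deriv ?_
  rw [gc, neg_smul]
  abel

end Pool.Agent.Work.MP_659252_gt.QR
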