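import Pool.Agent.Work.MP_659252_gt.Z.Defs

/-!
# Layered directions: the objects of the theorem

The sphere `x ⬝ᵥ x = 1` of `V d = ℝ^{d+1}`, tensor fields (`Ten`, `val`), tangent vectors of the sphere (`Tan`) and the
set `T_d` (`InT`) are those of `Pool.Agent.Work.MP_659252_gt.Z.Defs`.  A layered function `f` describes a nested family
of convex cones `f ≥ s` in the open half space `x_0 > 0` (in the gnomonic chart of the upper hemisphere: compact
strictly convex bodies), extended to an even function.
-/

namespace Pool.Agent.Work.MP_659252_gt.QR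

open scoped ContDiff
open Pool.Agent.Work.MP_659252_gt.Z (V Ten val)

/-- The gradient of a function on `ℝ^{d+1}`. -/
noncomputable def gr {d : ℕ} (f : V d → ℝ) (x : V d) : V d := fun i => fderiv ℝ f x (Pi.single i 1)

/-- The second derivative of `f` at `x` in the direction `v`. -/
noncomputable def D2 {d : ℕ} (f : V d → ℝ) (x v : V d) : ℝ := iteratedDeriv 2 (fun t : ℝ => f (x + t • v)) 0

/-- `f` is a layered function on `ℝ^{d+1}` minus `0`: homogeneous of degree `0` and even, continuous, `≥ 0`, zero on the
hyperplane `x_0 = 0`; smooth without critical points where `0 < f < T`; the sets `f ≥ s` in the half space `x_0 > 0`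
are convex cones whose boundaries are strictly curved (the second derivative is negative in all directions tangent to
the level set, except the direction of the ray). -/
structure Layered {d : ℕ} (f : V d → ℝ) (T : ℝ) : Prop where
  hom : ∀ (c : ℝ) (x : V d), c ≠ 0 → f (c • x) = f x
  zero : ∀ x : V d, x 0 = 0 → f x = 0
  nonneg : ∀ x, 0 ≤ f x
  cont : ContinuousOn f {0}ᶜ
  smooth : ContDiffOn ℝ ∞ f {x | 0 < f x ∧ f x < T}
  reg : ∀ x, 0 < f x → f x < T → gr f x ≠ 0
  conv : ∀ x y : V d, 0 < x 0 → 0 < y 0 → min (f x) (f y) ≤ f (x + y)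
  curv : ∀ x v : V d, 0 < f x → f x < T → gr f x ⬝ᵥ v = 0 → (∀ c : ℝ, v ≠ c • x) → D2 f x v < 0

/-- Symmetric tensor field on the part `U` of the sphere (`U` a union of lines through `0`): a field of symmetric
matrices, even and homogeneous of degree `0`, whose matrix at `x` kills `x`; smooth on `U`. -/
structure SymTen {d : ℕ} (k : Ten d) (U : Set (V d)) : Prop where
  smooth : ContDiffOn ℝ ∞ k U
  symm : ∀ x i j, k x i j = k x j i
  hom : ∀ (c : ℝ) (x : V d), c ≠ 0 → k (c • x) = k x
  tan : ∀ x v, val k x x v = 0

/-- The tensor `sign (x_0) (B(f) k + B'(f) w df ⊗ df)`: a layered direction, odd under the antipodal map. -/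
noncomputable def dir {d : ℕ} (f w : V d → ℝ) (k : Ten d) (B : ℝ → ℝ) : Ten d := fun x i j =>
  Real.sign (x 0) * (B (f x) * k x i j + deriv B (f x) * w x * (gr f x i * gr f x j))

end Pool.Agent.Work.MP_659252_gt.QR
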