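import Pool.Agent.Work.MP_659252_gt.QR.L.Pick
import Pool.Agent.Work.MP_659252_gt.QR.Q.CutB
import Pool.Agent.Work.MP_659252_gt.QR.Q.LocQ
import Pool.Agent.Work.MP_659252_gt.QR.Q.Glob
import Pool.Agent.Work.MP_659252_gt.QR.Q.IffQ

/-!
# THEOREM: the level sets of a layered Zoll direction are quadrics
-/

namespace Pool.Agent.Work.MP_659252_gt.QR

open scoped ContDiff Topology
open Pool.Agent.Work.MP_659252_gt.Z (V Ten val Tan InT IsZoll IsMetric IsGeodesic)

variable {d : ℕ}

private theorem dot_self_eq (x : V d) : bil (fun i j => if i = j then (1 : ℝ) else 0) x x = x ⬝ᵥ x := by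
  simp [bil, dotProduct]

theorem layered_quadric (hd : 3 ≤ d) (f w : V d → ℝ) (k : Ten d) (T : ℝ) (hf : Layered f T)
    (hk : SymTen k {x | 0 < f x ∧ f x < T}) (hw : ContDiffOn ℝ ∞ w {x | 0 < f x ∧ f x < T})
    (hwh : ∀ (c : ℝ) (x : V d), c ≠ 0 → w (c • x) = c ^ 2 * w x)
    (hz : ∀ b : ℝ → ℝ, Bump 0 T b → InT (dir f w k b)) (s : ℝ) (h0 : 0 < s) (hT : s < T)
    (hne : ∀ x : V d, f x = s → ∃ v, gr f x ⬝ᵥ v = 0 ∧ val k x v v ≠ w x * D2 f x v) :
    ∃ A : Mat d, (∀ i j, A i j = A j i) ∧ ∀ x : V d, x ≠ 0 → (f x = s ↔ bil A x x = 0) := by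
  by_cases hex : ∃ x : V d, f x = s
  swap
  · refine ⟨fun i j => if i = j then 1 else 0, fun i j => by simp only [eq_comm], fun x hx => ?_⟩
    refine ⟨fun h => absurd ⟨x, h⟩ hex, fun h => ?_⟩
    rw [dot_self_eq] at h
    have h1 := norm_sq_le_dot x
    rw [h] at h1
    have h2 : ‖x‖ = 0 := by nlinarith [norm_nonneg x]
    exact absurd (norm_eq_zero.mp h2) hx
  obtain ⟨x1, hx1⟩ := hex
  have hx10 : x1 0 ≠ 0 := fun h => by
    rw [hf.zero x1 h] at hx1
    exact h0.ne hx1
  obtain ⟨P, P0, hP⟩ : ∃ P : V d, 0 < P 0 ∧ f P = s := by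
    rcases lt_or_gt_of_ne hx10 with h | h
    · refine ⟨(-1 : ℝ) • x1, ?_, ?_⟩
      · simp only [Pi.smul_apply, smul_eq_mul]
        linarith
      · rw [hf.hom _ _ (by norm_num)]
        exact hx1
    · exact ⟨x1, h, hx1⟩
  obtain ⟨g, v, m, lo, hi, lo0, los, shi, hiT, heq, hlo, hhi, hloc⟩ := cut f w k T hf hk hw hwh hz s h0 hT
  have hgs : ∀ y, g y = s → f y = s := by
    intro y hy
    have h1 : lo < f y := by
      by_contra h
      push Not at h
      have := hlo y h
      linarith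
    have h2 : f y < hi := by
      by_contra h
      push Not at h
      have := hhi y h
      linarith
    rw [← (heq y h1 h2).1, hy]
  have hne0 : ∀ R : V d, 0 < R 0 → R ≠ 0 := by
    rintro R hR rfl
    simp at hR
  have hnear : ∀ R : V d, 0 < R 0 → f R = s → ∀ᶠ y in 𝓝 R, 0 < y 0 ∧ lo < f y ∧ f y < hi := by
    intro R R0 hR
    have hc : ContinuousAt f R := hf.cont.continuousAt (isOpen_compl_singleton.mem_nhds (hne0 R R0))
    have h1 : ∀ᶠ y : V d in 𝓝 R, 0 < y 0 := Filter.Tendsto.eventually_const_lt R0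
      (continuous_apply (0 : Fin (d + 1))).continuousAt
    have h2 : ∀ᶠ y in 𝓝 R, lo < f y := Filter.Tendsto.eventually_const_lt (by rw [hR]; exact los) hc
    have h3 : ∀ᶠ y in 𝓝 R, f y < hi := Filter.Tendsto.eventually_lt_const (by rw [hR]; exact shi) hc
    filter_upwards [h1, h2, h3] with y a b c using ⟨a, b, c⟩
  have hfd : ∀ R : V d, 0 < R 0 → f R = s → g =ᶠ[𝓝 R] f := fun R R0 hR =>
    (hnear R R0 hR).mono fun y hy => (heq y hy.2.1 hy.2.2).1
  have key : ∀ x : V d, 0 < x 0 → f x = s → ∃ A : Mat d, (∀ i j, A i j = A j i) ∧ mul A x ≠ 0 ∧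
      ∀ᶠ y in 𝓝 x, f y = s → bil A y y = 0 := by
    intro Q Q0 hQ
    have hgQ : g Q = s := by rw [(heq Q (by rw [hQ]; exact los) (by rw [hQ]; exact shi)).1, hQ]
    have L := hloc Q Q0 (by rw [hQ]; exact los) (by rw [hQ]; exact shi)
    obtain ⟨A, hA1, hA2, hA3⟩ := locQ hd g L.fs L.fh Q Q0 L.reg
      (by
        intro R R0 hR a ha hane
        have hfR : f R = s := hgs R (hR.trans hgQ)
        have LR := hloc R R0 (by rw [hfR]; exact los) (by rw [hfR]; exact shi)
        rw [← D2_eq g LR.fs R (hne0 R R0) a]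
        exact LR.curv a (by rw [gr_dot]; exact ha.2) ha.1 hane)
      (by
        intro R R0 hR a b ha hb hab
        have hfR : f R = s := hgs R (hR.trans hgQ)
        have LR := hloc R R0 (by rw [hfR]; exact los) (by rw [hfR]; exact shi)
        refine pick (by omega) g v m lo hi R
          ((hnear R R0 hfR).mono fun y hy => hloc y hy.1 hy.2.1 hy.2.2) ?_ a b ha hb hab
        obtain ⟨e, he1, he2⟩ := hne R hfR
        obtain ⟨-, hv, hm⟩ := heq R (by rw [hfR]; exact los) (by rw [hfR]; exact shi)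
        refine ⟨e, ?_, ?_⟩
        · rw [(hfd R R0 hfR).fderiv_eq, ← gr_dot]
          exact he1
        · rw [hv, hm, ← D2_eq g LR.fs R (hne0 R R0) e]
          have hD : D2 g R e = D2 f R e := by
            unfold D2
            refine Filter.EventuallyEq.iteratedDeriv_eq 2 ?_
            have ht : Filter.Tendsto (fun t : ℝ => R + t • e) (𝓝 0) (𝓝 R) := by
              have : Continuous (fun t : ℝ => R + t • e) := by fun_prop
              simpa using this.tendsto 0
            exact ht.eventually (hfd R R0 hfR)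
          rw [hD]
          exact he2)
    refine ⟨A, hA1, hA2, ?_⟩
    filter_upwards [hA3, hnear Q Q0 hQ] with y hy hy2 hfy
    exact hy (by rw [(heq y hy2.2.1 hy2.2.2).1, hfy, hgQ])
  obtain ⟨A, hA1, hA2, hA3⟩ := glob (by omega) f T hf s h0 hT key P P0 hP
  exact ⟨A, hA1, fun x hx => iffQ f T hf s h0 hT P P0 hP A hA1 hA2 hA3 x hx⟩

end Pool.Agent.Work.MP_659252_gt.QR
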