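import Pool.Agent.Work.MP_659252_gt.QR.Fin

/-!
# Restriction to a range of levels

If the directions with profile supported in `(s₁, s₂)` are tangent to the Zoll metrics then the levels in `(s₁, s₂)` are
quadrics: replace `f` by `max (f - s₁) 0`.
-/

namespace Pool.Agent.Work.MP_659252_gt.QR

open scoped ContDiff Topology
open Pool.Agent.Work.MP_659252_gt.Z (V Ten val Tan InT IsZoll IsMetric IsGeodesic)

variable {d : ℕ}

/-- The shifted function. -/
private noncomputable def sh (f : V d → ℝ) (s₁ : ℝ) (x : V d) : ℝ := max (f x - s₁) 0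

private theorem sh_pos {f : V d → ℝ} {s₁ : ℝ} {x : V d} (h : 0 < sh f s₁ x) : s₁ < f x ∧ sh f s₁ x = f x - s₁ := by
  unfold sh at h ⊢
  rcases lt_max_iff.mp h with h1 | h1
  · exact ⟨by linarith, max_eq_left h1.le⟩
  · exact absurd h1 (lt_irrefl _)

private theorem sh_eq {f : V d → ℝ} {s₁ : ℝ} {x : V d} (h : s₁ < f x) : sh f s₁ x = f x - s₁ :=
  max_eq_left (by linarith)

private theorem ne_zero_of_pos {f : V d → ℝ} {T : ℝ} (hf : Layered f T) {x : V d} (h : 0 < f x) : x ≠ 0 := by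
  rintro rfl
  have := hf.zero 0 rfl
  linarith

private theorem sh_near {f : V d → ℝ} {T s₁ : ℝ} (hf : Layered f T) (h₁ : 0 ≤ s₁) {x : V d} (h : s₁ < f x) :
    sh f s₁ =ᶠ[𝓝 x] fun y => f y - s₁ := by
  have hx : x ≠ 0 := ne_zero_of_pos hf (by linarith)
  have hc : ContinuousAt f x := hf.cont.continuousAt (isOpen_compl_singleton.mem_nhds hx)
  filter_upwards [Filter.Tendsto.eventually_const_lt h hc] with y hy using sh_eq hy

private theorem gr_sh {f : V d → ℝ} {T s₁ : ℝ} (hf : Layered f T) (h₁ : 0 ≤ s₁) {x : V d} (h : s₁ < f x) :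
    gr (sh f s₁) x = gr f x := by
  funext i
  unfold gr
  rw [(sh_near hf h₁ h).fderiv_eq, fderiv_sub_const]

private theorem D2_sh {f : V d → ℝ} {T s₁ : ℝ} (hf : Layered f T) (h₁ : 0 ≤ s₁) {x : V d} (h : s₁ < f x) (v : V d) :
    D2 (sh f s₁) x v = D2 f x v := by
  unfold D2
  have ht : Filter.Tendsto (fun t : ℝ => x + t • v) (𝓝 0) (𝓝 x) := by
    have : Continuous (fun t : ℝ => x + t • v) := by fun_prop
    simpa using this.tendsto 0
  have h2 : (fun t : ℝ => sh f s₁ (x + t • v)) =ᶠ[𝓝 0] fun t : ℝ => f (x + t • v) - s₁ :=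
    ht.eventually (sh_near hf h₁ h)
  rw [h2.iteratedDeriv_eq 2]
  rw [iteratedDeriv_succ, iteratedDeriv_one, iteratedDeriv_succ, iteratedDeriv_one]
  have h3 : deriv (fun t : ℝ => f (x + t • v) - s₁) = deriv (fun t : ℝ => f (x + t • v)) := by
    funext t
    rw [deriv_sub_const]
  rw [h3]

theorem layered_sh {f : V d → ℝ} {T s₁ s₂ : ℝ} (hf : Layered f T) (h₁ : 0 ≤ s₁) (h₂ : s₂ ≤ T) :
    Layered (sh f s₁) (s₂ - s₁) where
  hom c x hc := by
    unfold sh
    rw [hf.hom c x hc]
  zero x hx := by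
    unfold sh
    rw [hf.zero x hx]
    exact max_eq_right (by linarith)
  nonneg x := le_max_right _ _
  cont := by
    unfold sh
    exact (hf.cont.sub continuousOn_const).sup continuousOn_const
  smooth := by
    have h : ContDiffOn ℝ ∞ (fun x => f x - s₁) {x | 0 < sh f s₁ x ∧ sh f s₁ x < s₂ - s₁} := by
      refine (hf.smooth.mono ?_).sub contDiffOn_const
      rintro x ⟨h1, h2⟩
      obtain ⟨h3, h4⟩ := sh_pos h1
      exact ⟨by linarith, by linarith⟩
    refine h.congr ?_
    rintro x ⟨h1, -⟩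
    exact (sh_pos h1).2
  reg x h1 h2 := by
    obtain ⟨h3, h4⟩ := sh_pos h1
    rw [gr_sh hf h₁ h3]
    exact hf.reg x (by linarith) (by linarith)
  conv x y hx hy := by
    have h := hf.conv x y hx hy
    unfold sh
    rw [← max_min_distrib_right]
    refine max_le_max ?_ le_rfl
    rcases min_cases (f x) (f y) with ⟨h3, h4⟩ | ⟨h3, h4⟩
    · rw [h3] at h
      exact (min_le_left _ _).trans (by linarith)
    · rw [h3] at h
      exact (min_le_right _ _).trans (by linarith)
  curv x v h1 h2 hv hv' := by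
    obtain ⟨h3, h4⟩ := sh_pos h1
    rw [D2_sh hf h₁ h3]
    rw [gr_sh hf h₁ h3] at hv
    exact hf.curv x v (by linarith) (by linarith) hv hv'

theorem layered_quadric_loc (hd : 3 ≤ d) (f w : V d → ℝ) (k : Ten d) (T : ℝ) (hf : Layered f T)
    (hk : SymTen k {x | 0 < f x ∧ f x < T}) (hw : ContDiffOn ℝ ∞ w {x | 0 < f x ∧ f x < T})
    (hwh : ∀ (c : ℝ) (x : V d), c ≠ 0 → w (c • x) = c ^ 2 * w x) (s₁ s₂ : ℝ) (h₁ : 0 ≤ s₁) (h₂ : s₂ ≤ T)
    (hz : ∀ b : ℝ → ℝ, Bump s₁ s₂ b → InT (dir f w k b)) (s : ℝ) (h0 : s₁ < s) (hT : s < s₂)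
    (hne : ∀ x : V d, f x = s → ∃ v, gr f x ⬝ᵥ v = 0 ∧ val k x v v ≠ w x * D2 f x v) :
    ∃ A : Mat d, (∀ i j, A i j = A j i) ∧ ∀ x : V d, x ≠ 0 → (f x = s ↔ bil A x x = 0) := by
  have hsub : {x | 0 < sh f s₁ x ∧ sh f s₁ x < s₂ - s₁} ⊆ {x | 0 < f x ∧ f x < T} := by
    rintro x ⟨h1, h2⟩
    obtain ⟨h3, h4⟩ := sh_pos h1
    exact ⟨by linarith, by linarith⟩
  have hk' : SymTen k {x | 0 < sh f s₁ x ∧ sh f s₁ x < s₂ - s₁} := ⟨hk.smooth.mono hsub, hk.symm, hk.hom, hk.tan⟩
  have hiff : ∀ x : V d, sh f s₁ x = s - s₁ ↔ f x = s := by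
    intro x
    constructor
    · intro h
      have h3 := sh_pos (f := f) (s₁ := s₁) (x := x) (by rw [h]; linarith)
      linarith [h3.2]
    · intro h
      rw [sh_eq (by rw [h]; exact h0), h]
  obtain ⟨A, hA, hA2⟩ := layered_quadric hd (sh f s₁) w k (s₂ - s₁) (layered_sh hf h₁ h₂) hk' (hw.mono hsub) hwh
    (by
      rintro b ⟨hb, a, c, ha, hc, hz0⟩
      have hb' : Bump s₁ s₂ (fun y => b (y - s₁)) := by
        refine ⟨by fun_prop, a + s₁, c + s₁, by linarith, by linarith, fun y hy => hz0 _ ?_⟩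
        rintro ⟨h3, h4⟩
        exact hy ⟨by linarith, by linarith⟩
      have heq : dir (sh f s₁) w k b = dir f w k (fun y => b (y - s₁)) := by
        funext x i j
        unfold dir
        have hd1 : deriv (fun y => b (y - s₁)) (f x) = deriv b (f x - s₁) := by
          rw [deriv_comp_sub_const]
        rw [hd1]
        by_cases hx : s₁ < f x
        · rw [sh_eq hx, gr_sh hf h₁ hx]
        · have h5 : f x - s₁ < a := by linarith
          have h6 : sh f s₁ x = 0 := max_eq_right (by linarith)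
          have hz1 : ∀ y, y < a → b y = 0 ∧ deriv b y = 0 := by
            intro y hy
            refine ⟨hz0 y fun h => by linarith [h.1], ?_⟩
            have : b =ᶠ[𝓝 y] fun _ => 0 := by
              filter_upwards [isOpen_Iio.mem_nhds hy] with z hz2
              exact hz0 z fun h => by
                have := h.1
                have h7 : z < a := hz2
                linarith
            rw [this.deriv_eq, deriv_const]
          rw [h6, (hz1 0 ha).1, (hz1 0 ha).2, (hz1 _ h5).2]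
          simp only [(hz1 _ h5).1]
          ring
      rw [heq]
      exact hz _ hb')
    (s - s₁) (by linarith) (by linarith)
    (by
      intro x hx
      have hfx := (hiff x).mp hx
      obtain ⟨v, hv1, hv2⟩ := hne x hfx
      have h3 : s₁ < f x := by rw [hfx]; exact h0
      exact ⟨v, by rw [gr_sh hf h₁ h3]; exact hv1, by rw [D2_sh hf h₁ h3]; exact hv2⟩)
  exact ⟨A, hA, fun x hx => by rw [← hiff x]; exact hA2 x hx⟩

end Pool.Agent.Work.MP_659252_gt.QR
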